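import Pool.Agent.W_afafb9_h98.GFin

/-!
# MP_afafb9_al: every group of subexponential growth is absorbed by a wreath product with convergent ratios
-/

set_option autoImplicit false

namespace Pool.Agent.Results.MP_afafb9_al.Absorption

open Filter Topology Gri98

/-- For every finitely generated group `G` of subexponential growth there is a Grigorchuk group `Γ_ω` such that,
with `W` the wreath product of `ℤ` over `Γ_ω` (generated by the lifts of `Γ_ω` and `z`), the group `G × W` has
subexponential, superpolynomial growth and convergent ratios of the growth function for all generating sets of the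
form `A ∪ {z}`, `A` any finite generating set of `G × Γ_ω`. -/
theorem result {G : Type*} [Group G] (T : Set G) (hTf : T.Finite) (hT : Subgroup.closure T = ⊤)
    (h1 : Tendsto (fun n : ℕ => (gr T n : ℝ) ^ ((1 : ℝ) / (n : ℝ))) atTop (𝓝 1)) :
    ∃ (ω : ℕ → Bt) (hω : Ok ω), (∀ s : Bt, s ≠ .e → ∀ n, ∃ m ≥ n, ω m = s) ∧
      ∀ A : Set (G × Equiv.Perm Om), A.Finite → Subgroup.closure A = (⊤ : Subgroup G).prod (Gam ω hω) →
        Subgroup.closure (PW x0 A) = (⊤ : Subgroup G).prod (Subgroup.closure (SW x0 (stdS ω hω))) ∧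
        Tendsto (fun n : ℕ => (gr (PW x0 A) n : ℝ) ^ ((1 : ℝ) / (n : ℝ))) atTop (𝓝 1) ∧
        (∀ d : ℕ, Tendsto (fun n : ℕ => (gr (PW x0 A) n : ℝ) / (n : ℝ) ^ d) atTop atTop) ∧
        Tendsto (fun n : ℕ => (gr (PW x0 A) (n + 1) : ℝ) / (gr (PW x0 A) n : ℝ)) atTop (𝓝 1) := by
  obtain ⟨ω, hω, hi, hs⟩ := sel h1
  refine ⟨ω, hω, hi, fun A hA hAc => ?_⟩
  obtain ⟨e1, e2, e3⟩ := gfin_main hTf hT hω hi hs hA hAc
  exact ⟨closure_PW x0 A (stdS ω hω) hAc, e2, e3, e1⟩

end Pool.Agent.Results.MP_afafb9_al.Absorption
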