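import Pool.Agent.W_afafb9_h98.Fin

/-!
# MP_afafb9_al: ratios of the growth function for wreath products over the Grigorchuk groups
-/

set_option autoImplicit false

namespace Pool.Agent.Results.MP_afafb9_al.GrigorchukWreath

open Filter Topology Gri98

/-- Let `ω : ℕ → {b, c, d}` take each value infinitely often, `Γ_ω = ⟨a, b, c, d⟩` the Grigorchuk group, `A` a finite
generating set of `Γ_ω`, and `W` the group generated by the lifts of `A` and `z` (`ℤ wr_X Γ_ω`). The growth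
function `n ↦ gr (SW x0 A) n` of `W` for this generating set is subexponential, superpolynomial, and its ratios
converge to `1`. -/
theorem result (ω : ℕ → Bt) (hω : Ok ω) (hi : ∀ s : Bt, s ≠ .e → ∀ n, ∃ m ≥ n, ω m = s)
    (A : Set (Equiv.Perm Om)) (hA : A.Finite) (hg : Subgroup.closure A = Gam ω hω) :
    Tendsto (fun n : ℕ => (gr (SW x0 A) n : ℝ) ^ ((1 : ℝ) / (n : ℝ))) atTop (𝓝 1) ∧
    (∀ d : ℕ, Tendsto (fun n : ℕ => (gr (SW x0 A) n : ℝ) / (n : ℝ) ^ d) atTop atTop) ∧
    Tendsto (fun n : ℕ => (gr (SW x0 A) (n + 1) : ℝ) / (gr (SW x0 A) n : ℝ)) atTop (𝓝 1) := by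
  obtain ⟨h1, h2, h3⟩ := fin_main hω hi hA hg
  exact ⟨h2, h3, h1⟩

end Pool.Agent.Results.MP_afafb9_al.GrigorchukWreath
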